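import Pool.Agent.Lib.MP_5e7226_co.DX.C

set_option autoImplicit false

/-! The core for the reflection group `D_4` (12 directions). -/

namespace Pool.Agent.Lib.MP_5e7226_co.D4

open Finset
open Pool.Agent.Lib.MP_5e7226_co.DX (Works Cham CubeData cham_ne partial_pos pair_pos)

/-- The roots of `D_4` in coordinates: `± e_i ± e_j`. -/
def Root (a : Fin 4 → ℝ) : Prop := (∀ i, a i = 0 ∨ a i = 1 ∨ a i = -1) ∧ ∑ i, a i ^ 2 = 2

/-- The reflection in a root. -/
def refl (a x : Fin 4 → ℝ) : Fin 4 → ℝ := fun i => x i - (∑ j, a j * x j) * a i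

/-- A set of dual pairs which is invariant under the reflections of `D_4`. -/
structure Dual4 (G : Set ((Fin 4 → ℝ) × (Fin 4 → ℝ))) : Prop where
  one : ∀ p ∈ G, ∑ i, p.2 i * p.1 i = 1
  le : ∀ p ∈ G, ∀ q ∈ G, ∑ i, p.2 i * q.1 i ≤ 1
  inv : ∀ a, Root a → ∀ p ∈ G, (refl a p.1, refl a p.2) ∈ G
  ray : ∀ x : Fin 4 → ℝ, x ≠ 0 → ∃ t : ℝ, 0 < t ∧ ∃ u, ((fun i => t * x i), u) ∈ G

/-- Sign vectors. -/
def Sg (s : Fin 4 → ℝ) : Prop := ∀ i, s i = 1 ∨ s i = -1

theorem sum4 (f : Fin 4 → ℝ) {p i j l : Fin 4} (h1 : p ≠ i) (h2 : p ≠ j) (h3 : p ≠ l) (h4 : i ≠ j)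
    (h5 : i ≠ l) (h6 : j ≠ l) : ∑ k, f k = f p + f i + f j + f l := by
  have h : (univ : Finset (Fin 4)) = {p, i, j, l} := by
    symm
    apply Finset.eq_univ_of_card
    rw [Finset.card_insert_of_notMem (by simp [h1, h2, h3]),
      Finset.card_insert_of_notMem (by simp [h4, h5]), Finset.card_insert_of_notMem (by simp [h6]),
      Finset.card_singleton, Fintype.card_fin]
  rw [h, Finset.sum_insert (by simp [h1, h2, h3]), Finset.sum_insert (by simp [h4, h5]),
    Finset.sum_insert (by simp [h6]), Finset.sum_singleton]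
  ring

theorem prod4 (f : Fin 4 → ℝ) {p i j l : Fin 4} (h1 : p ≠ i) (h2 : p ≠ j) (h3 : p ≠ l) (h4 : i ≠ j)
    (h5 : i ≠ l) (h6 : j ≠ l) : ∏ k, f k = f p * f i * f j * f l := by
  have h : (univ : Finset (Fin 4)) = {p, i, j, l} := by
    symm
    apply Finset.eq_univ_of_card
    rw [Finset.card_insert_of_notMem (by simp [h1, h2, h3]),
      Finset.card_insert_of_notMem (by simp [h4, h5]), Finset.card_insert_of_notMem (by simp [h6]),
      Finset.card_singleton, Fintype.card_fin]
  rw [h, Finset.prod_insert (by simp [h1, h2, h3]), Finset.prod_insert (by simp [h4, h5]),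
    Finset.prod_insert (by simp [h6]), Finset.prod_singleton]
  ring

theorem eq_of_four {p i j l : Fin 4} (h1 : p ≠ i) (h2 : p ≠ j) (h3 : p ≠ l) (h4 : i ≠ j)
    (h5 : i ≠ l) (h6 : j ≠ l) (k : Fin 4) : k = p ∨ k = i ∨ k = j ∨ k = l := by
  have h : k ∈ ({p, i, j, l} : Finset (Fin 4)) := by
    have : ({p, i, j, l} : Finset (Fin 4)) = univ := by
      apply Finset.eq_univ_of_card
      rw [Finset.card_insert_of_notMem (by simp [h1, h2, h3]),
        Finset.card_insert_of_notMem (by simp [h4, h5]), Finset.card_insert_of_notMem (by simp [h6]),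
        Finset.card_singleton, Fintype.card_fin]
    rw [this]; exact mem_univ _
  simpa using h

/-! ### The chamber inequalities -/

/-- The product form of the reflection inequality. -/
theorem root_prod {G : Set ((Fin 4 → ℝ) × (Fin 4 → ℝ))} (hG : Dual4 G) {x u : Fin 4 → ℝ} (h : (x, u) ∈ G)
    {a : Fin 4 → ℝ} (ha : Root a) : 0 ≤ (∑ i, a i * x i) * (∑ i, a i * u i) := by
  have h1 := hG.le _ h _ (hG.inv a ha _ h)
  have h2 := hG.one _ h
  have h3 : ∑ i, u i * refl a x i = ∑ i, u i * x i - (∑ i, a i * x i) * (∑ i, a i * u i) := by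
    unfold refl
    rw [Finset.mul_sum, ← Finset.sum_sub_distrib]
    refine Finset.sum_congr rfl fun i _ => ?_
    ring
  have h4 : ∑ i, u i * refl a x i ≤ 1 := h1
  have h5 : ∑ i, u i * x i = 1 := h2
  rw [h3, h5] at h4
  linarith

/-- The root `e_i - e e_j`. -/
def rt (i j : Fin 4) (e : ℝ) : Fin 4 → ℝ := fun k => if k = i then 1 else if k = j then -e else 0

theorem sum_rt (i j : Fin 4) (hij : i ≠ j) (e : ℝ) (x : Fin 4 → ℝ) :
    ∑ k, rt i j e k * x k = x i - e * x j := by
  rw [Finset.sum_eq_add i j hij (fun k _ hk => by simp [rt, hk.1, hk.2]) (by simp) (by simp)]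
  simp [rt, hij.symm]
  ring

theorem root_rt (i j : Fin 4) (hij : i ≠ j) {e : ℝ} (he : e = 1 ∨ e = -1) : Root (rt i j e) := by
  constructor
  · intro k
    unfold rt
    by_cases h1 : k = i
    · simp [h1]
    · by_cases h2 : k = j
      · rcases he with h | h <;> simp [h1, h2, h, hij.symm]
      · simp [h1, h2]
  · have h1 : ∑ k, rt i j e k ^ 2 = ∑ k, rt i j e k * rt i j e k :=
      Finset.sum_congr rfl fun k _ => by ring
    rw [h1, sum_rt i j hij]
    rcases he with h | h <;> simp [rt, h, hij.symm] <;> norm_num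

theorem refl_pair {G : Set ((Fin 4 → ℝ) × (Fin 4 → ℝ))} (hG : Dual4 G) {x u : Fin 4 → ℝ} (h : (x, u) ∈ G)
    {i j : Fin 4} (hij : i ≠ j) {e : ℝ} (he : e = 1 ∨ e = -1) : 0 ≤ (x i - e * x j) * (u i - e * u j) := by
  have h1 := root_prod hG h (root_rt i j hij he)
  rwa [sum_rt i j hij, sum_rt i j hij] at h1

theorem cham {G : Set ((Fin 4 → ℝ) × (Fin 4 → ℝ))} (hG : Dual4 G) {x u s : Fin 4 → ℝ} (h : (x, u) ∈ G)
    (hs : Sg s) (hsx : ∀ i, s i * x i = |x i|) : Cham (fun i => |x i|) (fun i => s i * u i) := by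
  have hss : ∀ i, s i * s i = 1 := fun i => by rcases hs i with h | h <;> rw [h] <;> norm_num
  have key : ∀ i j, i ≠ j → ∀ e : ℝ, e = 1 ∨ e = -1 →
      0 ≤ (|x i| - e * |x j|) * (s i * u i - e * (s j * u j)) := by
    intro i j hij e he
    have h1 := refl_pair hG h hij (e := s i * e * s j) (by
      rcases hs i with h1 | h1 <;> rcases hs j with h2 | h2 <;> rcases he with h3 | h3 <;>
        rw [h1, h2, h3] <;> norm_num)
    have h2 : (x i - s i * e * s j * x j) * (u i - s i * e * s j * u j) =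
        (|x i| - e * |x j|) * (s i * u i - e * (s j * u j)) := by
      rw [← hsx i, ← hsx j]
      have e1 : x i - s i * e * s j * x j = s i * (s i * x i - e * (s j * x j)) := by
        linear_combination (-(x i)) * hss i
      rw [e1]
      linear_combination ((s i * x i - e * (s j * x j)) * (-(e * s j * u j))) * hss i
    rw [h2] at h1
    exact h1
  refine ⟨fun i => abs_nonneg _, ?_, ?_, ?_⟩
  · intro i j hij
    have hne : i ≠ j := fun e => by rw [e] at hij; exact lt_irrefl _ hij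
    have hij' : |x j| < |x i| := hij
    have h0 := abs_nonneg (x j)
    have h1 := key i j hne 1 (Or.inl rfl)
    have h2 := key i j hne (-1) (Or.inr rfl)
    have h3 := nonneg_of_mul_nonneg_right h1 (by linarith)
    have h4 := nonneg_of_mul_nonneg_right h2 (by linarith)
    rw [abs_le]
    constructor <;> linarith
  · intro i j hne hpos
    have hpos' : 0 < |x i| + |x j| := hpos
    have h2 := key i j hne (-1) (Or.inr rfl)
    have h4 := nonneg_of_mul_nonneg_right h2 (by linarith)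
    show 0 ≤ s i * u i + s j * u j
    linarith
  · rw [← hG.one _ h]
    refine Finset.sum_congr rfl fun i _ => ?_
    show s i * u i * |x i| = u i * x i
    rw [← hsx i]
    linear_combination (u i * x i) * hss i

/-! ### The five inequalities -/

variable {X U : Fin 4 → ℝ}

/-- Strict maximum at `p`. -/
theorem ineq_T1 (h : Cham X U) {p i j l : Fin 4} (h1 : p ≠ i) (h2 : p ≠ j) (h3 : p ≠ l) (h4 : i ≠ j)
    (h5 : i ≠ l) (h6 : j ≠ l) (hp : ∀ k, k ≠ p → X k < X p) {a b c : ℝ} (ha : |a| ≤ 1) (hb : |b| ≤ 1)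
    (hc : |c| ≤ 1) : 0 < U p * 4 + U i * a + U j * b + U l * c := by
  have hd : ∀ k, k ≠ p → ∀ a : ℝ, |a| ≤ 1 → -U p ≤ U k * a := by
    intro k hk a ha
    have h7 := h.dom p k (hp k hk)
    have h8 : |U k * a| ≤ U p := by
      rw [abs_mul]
      calc |U k| * |a| ≤ |U k| * 1 := mul_le_mul_of_nonneg_left ha (abs_nonneg _)
        _ ≤ U p := by rw [mul_one]; exact h7
    exact (abs_le.1 h8).1
  have h7 : 0 < U p := DX.max_pos (by norm_num) h hp
  have := hd i h1.symm a ha
  have := hd j h2.symm b hb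
  have := hd l h3.symm c hc
  linarith

/-- Strict top set `{p, i}`. -/
theorem ineq_T2 (h : Cham X U) {p i j l : Fin 4} (h1 : p ≠ i) (h2 : p ≠ j) (h3 : p ≠ l) (h4 : i ≠ j)
    (h5 : i ≠ l) (h6 : j ≠ l) (hpj : X j < X p) (hpl : X l < X p) (hij : X j < X i) (hil : X l < X i)
    {b c : ℝ} (hb : |b| ≤ 1) (hc : |c| ≤ 1) : 0 < U p * 4 + U i * 1 + U j * b + U l * c := by
  have e1 := h.dom p j hpj
  have e2 := h.dom p l hpl
  have e3 := h.dom i j hij
  have hd : ∀ k, |U k| ≤ U p → ∀ a : ℝ, |a| ≤ 1 → -U p ≤ U k * a := by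
    intro k h7 a ha
    have h8 : |U k * a| ≤ U p := by
      rw [abs_mul]
      calc |U k| * |a| ≤ |U k| * 1 := mul_le_mul_of_nonneg_left ha (abs_nonneg _)
        _ ≤ U p := by rw [mul_one]; exact h7
    exact (abs_le.1 h8).1
  have e4 := hd j e1 b hb
  have e5 := hd l e2 c hc
  have e6 : 0 ≤ U p := (abs_nonneg _).trans e1
  have e7 : 0 ≤ U i := (abs_nonneg _).trans e3
  by_contra hcon
  push Not at hcon
  have e8 : U p = 0 := by linarith
  have e9 : U i = 0 := by linarith
  obtain ⟨k, hk⟩ := cham_ne h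
  apply hk
  rcases eq_of_four h1 h2 h3 h4 h5 h6 k with r | r | r | r
  · rw [r]; exact e8
  · rw [r]; exact e9
  · rw [r]; rw [e8] at e1; exact abs_nonpos_iff.1 e1
  · rw [r]; rw [e8] at e2; exact abs_nonpos_iff.1 e2

/-- Flip of `p` when `p` is not a maximum, all coordinates positive. -/
theorem ineq_flip (h : Cham X U) (hX : ∀ k, 0 < X k) {p : Fin 4} (hp : ∃ k, X p < X k)
    {e : ℝ} (he0 : 0 < e) (he : e ≤ 1 / 8) {w : Fin 4 → ℝ} (hw0 : w p = e)
    (hw1 : ∀ k, k ≠ p → 1 - e ≤ w k) (hw2 : ∀ k, k ≠ p → w k ≤ 1) :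
    0 < -(U p * w p) + ∑ k ∈ univ.erase p, U k * w k := by
  have hne : (univ.filter (fun k => X p < X k)).Nonempty := by
    obtain ⟨k, hk⟩ := hp
    exact ⟨k, Finset.mem_filter.2 ⟨Finset.mem_univ _, hk⟩⟩
  obtain ⟨i, hi, hmax⟩ := Finset.exists_max_image _ U hne
  have hpi : X p < X i := (Finset.mem_filter.1 hi).2
  have hpi' : i ≠ p := fun e => by rw [e] at hpi; exact lt_irrefl _ hpi
  have h1 : |U p| ≤ U i := h.dom i p hpi
  have hUi0 : 0 ≤ U i := (abs_nonneg _).trans h1
  have hUi : 0 < U i := by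
    refine lt_of_le_of_ne hUi0 fun he => ?_
    obtain ⟨k, hk⟩ := cham_ne h
    apply hk
    by_cases hak : X p < X k
    · have h2 := hmax k (Finset.mem_filter.2 ⟨Finset.mem_univ _, hak⟩)
      have h3 := h.dom k p hak
      have h4 := abs_nonneg (U p)
      linarith
    · have h2 := h.dom i k (lt_of_le_of_lt (not_lt.1 hak) hpi)
      rw [← he] at h2
      exact abs_nonpos_iff.1 h2
  -- the other two
  have hcard : ((univ.erase p).erase i).card = 2 := by
    rw [Finset.card_erase_of_mem (Finset.mem_erase.2 ⟨hpi', Finset.mem_univ _⟩),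
      Finset.card_erase_of_mem (Finset.mem_univ _), Finset.card_univ, Fintype.card_fin]
  obtain ⟨j, l, hjl, hset⟩ := Finset.card_eq_two.1 hcard
  have hj : j ∈ (univ.erase p).erase i := by rw [hset]; simp
  have hl : l ∈ (univ.erase p).erase i := by rw [hset]; simp
  rw [Finset.mem_erase, Finset.mem_erase] at hj hl
  rw [← Finset.add_sum_erase (univ.erase p) _ (Finset.mem_erase.2 ⟨hpi', Finset.mem_univ _⟩), hset,
    Finset.sum_insert (by simpa using hjl), Finset.sum_singleton, hw0]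
  have a1 : e * U p ≤ e * U i := mul_le_mul_of_nonneg_left ((le_abs_self _).trans h1) he0.le
  have a2 : (1 - e) * U i ≤ U i * w i := by
    rw [mul_comm (U i)]
    exact mul_le_mul_of_nonneg_right (hw1 i hpi') hUi0
  have hpair : ∀ a b : Fin 4, a ≠ b → 0 ≤ U a + U b := fun a b hab => h.pair a b hab (by
    have := hX a
    have := hX b
    linarith)
  have key : ∀ a b : Fin 4, a ≠ b → a ≠ i → a ≠ p → b ≠ i → b ≠ p → U b < 0 →
      -(e * U i) ≤ U a * w a + U b * w b := by
    intro a b hab hai hap hbi hbp hUb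
    have b1 := hpair a b hab
    have b2 := hpair i b hbi.symm
    have b3 : (1 - e) * U a ≤ U a * w a := by
      rw [mul_comm (U a)]
      exact mul_le_mul_of_nonneg_right (hw1 a hap) (by linarith)
    have b4 : U b ≤ U b * w b := by
      have := mul_le_mul_of_nonpos_left (hw2 b hbp) hUb.le
      linarith
    have b5 : (1 - e) * (-U b) ≤ (1 - e) * U a := mul_le_mul_of_nonneg_left (by linarith) (by linarith)
    have b6 : e * (-U b) ≤ e * U i := mul_le_mul_of_nonneg_left (by linarith) he0.le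
    linarith
  have a3 : -(e * U i) ≤ U j * w j + U l * w l := by
    by_cases hUl : U l < 0
    · exact key j l hjl hj.1 hj.2.1 hl.1 hl.2.1 hUl
    · by_cases hUj : U j < 0
      · have := key l j hjl.symm hl.1 hl.2.1 hj.1 hj.2.1 hUj
        linarith
      · push Not at hUl hUj
        have b1 : 0 ≤ U j * w j := mul_nonneg hUj (by linarith [hw1 j hj.2.1])
        have b2 : 0 ≤ U l * w l := mul_nonneg hUl (by linarith [hw1 l hl.2.1])
        have b3 : 0 ≤ e * U i := mul_nonneg he0.le hUi0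
        linarith
  have a4 : e * U i ≤ 1 / 8 * U i := mul_le_mul_of_nonneg_right he hUi0
  linarith

/-- Flip of `j` below the three others. -/
theorem ineq_low (h : Cham X U) {p i j l : Fin 4} (h1 : p ≠ i) (h2 : p ≠ j) (h3 : p ≠ l) (h4 : i ≠ j)
    (h5 : i ≠ l) (h6 : j ≠ l) (hpj : X j < X p) (hij : X j < X i) (hlj : X j < X l)
    {e : ℝ} (he0 : 0 < e) (he : e ≤ 1 / 8) {w : Fin 4 → ℝ} (hw0 : w p = e)
    (hw1 : ∀ k, k ≠ p → 1 - e ≤ w k) (hw2 : ∀ k, k ≠ p → w k ≤ 1) :
    0 < U p * w p + U i * w i - U j * w j + U l * w l := by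
  have e1 := h.dom p j hpj
  have e2 := h.dom i j hij
  have e3 := h.dom l j hlj
  have e0 := abs_nonneg (U j)
  have f1 : (1 - e) * U i ≤ U i * w i := by
    rw [mul_comm (U i)]
    exact mul_le_mul_of_nonneg_right (hw1 i h1.symm) (e0.trans e2)
  have f2 : (1 - e) * U l ≤ U l * w l := by
    rw [mul_comm (U l)]
    exact mul_le_mul_of_nonneg_right (hw1 l h3.symm) (e0.trans e3)
  have f3 : U j * w j ≤ |U j| := by
    have g1 : U j * w j ≤ |U j * w j| := le_abs_self _
    rw [abs_mul] at g1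
    have g2 : |w j| ≤ 1 := abs_le.2 ⟨by linarith [hw1 j h2.symm], hw2 j h2.symm⟩
    have g3 := mul_le_mul_of_nonneg_left g2 e0
    linarith
  rw [hw0]
  by_contra hcon
  push Not at hcon
  have hUp0 : 0 ≤ U p := e0.trans e1
  have hUi0 : 0 ≤ U i := e0.trans e2
  have hUl0 : 0 ≤ U l := e0.trans e3
  have g1 : 0 ≤ U p * e := mul_nonneg hUp0 he0.le
  have g2 : 7 / 8 * U i ≤ (1 - e) * U i := mul_le_mul_of_nonneg_right (by linarith) hUi0
  have g3 : 7 / 8 * U l ≤ (1 - e) * U l := mul_le_mul_of_nonneg_right (by linarith) hUl0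
  have g4 : U i = 0 := by linarith
  have g5 : U l = 0 := by linarith
  have g6 : U j = 0 := by rw [g4] at e2; exact abs_nonpos_iff.1 e2
  have g7 : U p * e ≤ 0 := by rw [g4, g5, g6] at hcon; linarith
  have g8 : U p = 0 := by
    have : U p * e = 0 := le_antisymm g7 g1
    rcases mul_eq_zero.1 this with r | r
    · exact r
    · exact absurd r he0.ne'
  obtain ⟨k, hk⟩ := cham_ne h
  apply hk
  rcases eq_of_four h1 h2 h3 h4 h5 h6 k with r | r | r | r
  · rw [r]; exact g8
  · rw [r]; exact g4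
  · rw [r]; exact g6
  · rw [r]; exact g5

end Pool.Agent.Lib.MP_5e7226_co.D4
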