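import Pool.Agent.Lib.MP_5e7226_co.D4.Core

set_option autoImplicit false

/-! `D_4`: the 12 directions and the proof that they serve all dual pairs. -/

namespace Pool.Agent.Lib.MP_5e7226_co.D4

open Finset
open Pool.Agent.Lib.MP_5e7226_co.DX (Works Cham CubeData cham_ne partial_pos pair_pos)

/-- The sign of a Boolean. -/
def sg (b : Bool) : ℝ := if b then 1 else -1

theorem sg_cases (b : Bool) : sg b = 1 ∨ sg b = -1 := by cases b <;> simp [sg]

theorem exists_sg {r : ℝ} (h : r = 1 ∨ r = -1) : ∃ b, sg b = r := by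
  rcases h with h | h
  · exact ⟨true, by simp [sg, h]⟩
  · exact ⟨false, by simp [sg, h]⟩

theorem pm_mul_self {r : ℝ} (h : r = 1 ∨ r = -1) : r * r = 1 := by
  rcases h with h | h <;> rw [h] <;> norm_num

theorem pm_abs {r : ℝ} (h : r = 1 ∨ r = -1) : |r| = 1 := by
  rcases h with h | h <;> rw [h] <;> norm_num

theorem pm_mul {r t : ℝ} (h : r = 1 ∨ r = -1) (h' : t = 1 ∨ t = -1) : r * t = 1 ∨ r * t = -1 := by
  rcases h with h | h <;> rcases h' with h' | h' <;> rw [h, h'] <;> norm_num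

theorem pm_neg {r : ℝ} (h : r = 1 ∨ r = -1) : -r = 1 ∨ -r = -1 := by
  rcases h with h | h <;> rw [h] <;> norm_num

/-- The sign vector with the product `κ` and the last three signs `b`. -/
def eo (κ : ℝ) (b : Fin 3 → Bool) : Fin 4 → ℝ := Fin.cons (κ * ∏ k, sg (b k)) (fun k => sg (b k))

/-- The place of the bump. -/
def hh (b : Fin 3 → Bool) : Fin 3 := if b 0 = b 1 then 0 else if b 1 = b 2 then 1 else 2

/-- The weights. -/
def wt (e : ℝ) (b : Fin 3 → Bool) : Fin 4 → ℝ := Fin.cons e (fun k => if k = hh b then 1 else 1 - e)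

/-- The twelve vectors. -/
def zz (e κ : ℝ) : ((Fin 3 → Bool) ⊕ (Bool × Bool)) → Fin 4 → ℝ
  | Sum.inl b => fun i => eo κ b i * wt e b i
  | Sum.inr p => Fin.cons (4 * sg p.1) (fun _ => sg p.2)

theorem card_index : Fintype.card ((Fin 3 → Bool) ⊕ (Bool × Bool)) = 12 := by
  simp

theorem wt_zero (e : ℝ) (b : Fin 3 → Bool) : wt e b 0 = e := rfl

theorem wt_lo {e : ℝ} (he : 0 < e) (b : Fin 3 → Bool) (k : Fin 4) (hk : k ≠ 0) : 1 - e ≤ wt e b k := by
  obtain ⟨m, rfl⟩ := Fin.exists_succ_eq.2 hk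
  unfold wt
  rw [Fin.cons_succ]
  split_ifs <;> linarith

theorem wt_hi {e : ℝ} (he : 0 < e) (b : Fin 3 → Bool) (k : Fin 4) (hk : k ≠ 0) : wt e b k ≤ 1 := by
  obtain ⟨m, rfl⟩ := Fin.exists_succ_eq.2 hk
  unfold wt
  rw [Fin.cons_succ]
  split_ifs <;> linarith

theorem exists_bump : ∀ (j : Fin 3) (σ : Bool), ∃ b : Fin 3 → Bool, hh b = j ∧ b j = σ := by
  decide

theorem sg_eo {κ : ℝ} (hκ : κ = 1 ∨ κ = -1) (b : Fin 3 → Bool) : Sg (eo κ b) := by
  have h1 : (∏ k, sg (b k)) = 1 ∨ (∏ k, sg (b k)) = -1 := by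
    rw [Fin.prod_univ_three]
    exact pm_mul (pm_mul (sg_cases _) (sg_cases _)) (sg_cases _)
  intro i
  unfold eo
  refine Fin.cases ?_ (fun k => ?_) i
  · rw [Fin.cons_zero]; exact pm_mul hκ h1
  · rw [Fin.cons_succ]; exact sg_cases _

theorem exists_eo {κ : ℝ} {ε : Fin 4 → ℝ} (hε : Sg ε) (hp : ∏ k, ε k = κ) :
    ∃ b, eo κ b = ε := by
  choose b hb using fun k : Fin 3 => exists_sg (hε k.succ)
  refine ⟨b, ?_⟩
  funext i
  unfold eo
  refine Fin.cases ?_ (fun k => ?_) i
  · rw [Fin.cons_zero, ← hp, Fin.prod_univ_succ]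
    simp only [hb]
    have h1 : (∏ k : Fin 3, ε k.succ) = 1 ∨ (∏ k : Fin 3, ε k.succ) = -1 := by
      rw [Fin.prod_univ_three]
      exact pm_mul (pm_mul (hε _) (hε _)) (hε _)
    rw [mul_assoc, pm_mul_self h1, mul_one]
  · rw [Fin.cons_succ]; exact hb k

/-- The radii of the three classes of short vectors. -/
structure Pos (G : Set ((Fin 4 → ℝ) × (Fin 4 → ℝ))) (tB tA tC κ : ℝ) : Prop where
  pm : κ = 1 ∨ κ = -1
  pos : 0 < tB
  le1 : tB ≤ tC
  le2 : tC ≤ tA
  hB : ∀ (j : Fin 4) (σ : ℝ), (σ = 1 ∨ σ = -1) → ∃ u, ((fun k => if k = j then σ * tB else 0), u) ∈ G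
  hA : ∀ s : Fin 4 → ℝ, Sg s → ∏ k, s k = κ → ∃ u, ((fun k => tA / 2 * s k), u) ∈ G
  hC : ∀ s : Fin 4 → ℝ, Sg s → ∏ k, s k = -κ → ∃ u, ((fun k => tC / 2 * s k), u) ∈ G

theorem exists_signs (x : Fin 4 → ℝ) : ∃ s : Fin 4 → ℝ, Sg s ∧ ∀ i, s i * x i = |x i| := by
  refine ⟨fun i => if 0 ≤ x i then 1 else -1, ?_, ?_⟩
  · intro i
    by_cases h : 0 ≤ x i <;> simp [h]
  · intro i
    by_cases h : 0 ≤ x i
    · simp [h, abs_of_nonneg h]
    · simp [h, abs_of_neg (not_le.1 h)]

theorem sum_signs {s : Fin 4 → ℝ} (hs : Sg s) (u z : Fin 4 → ℝ) :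
    ∑ k, u k * z k = ∑ k, (s k * u k) * (s k * z k) := by
  refine Finset.sum_congr rfl fun k _ => ?_
  have := pm_mul_self (hs k)
  linear_combination (-(u k * z k)) * this

/-- `|u k| ≤ 1 / tB`. -/
theorem u_le {G : Set ((Fin 4 → ℝ) × (Fin 4 → ℝ))} (hG : Dual4 G) {tB tA tC κ : ℝ} (hP : Pos G tB tA tC κ)
    {x u : Fin 4 → ℝ} (h : (x, u) ∈ G) (k : Fin 4) {σ : ℝ} (hσ : σ = 1 ∨ σ = -1) : σ * u k * tB ≤ 1 := by
  obtain ⟨v, hv⟩ := hP.hB k σ hσ
  have h1 := hG.le _ h _ hv
  have h2 : ∑ i, u i * (if i = k then σ * tB else 0) = u k * (σ * tB) := by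
    simp
  have h3 : ∑ i, u i * (if i = k then σ * tB else 0) ≤ 1 := h1
  rw [h2] at h3
  linarith

/-- For every sign vector `ε`: `tB / 2 * ⟨u, ε⟩ ≤ 1`, if it is positive. -/
theorem eps_le {G : Set ((Fin 4 → ℝ) × (Fin 4 → ℝ))} (hG : Dual4 G) {tB tA tC κ : ℝ} (hP : Pos G tB tA tC κ)
    {x u : Fin 4 → ℝ} (h : (x, u) ∈ G) {ε : Fin 4 → ℝ} (hε : Sg ε) (h0 : 0 ≤ ∑ k, u k * ε k) :
    tC / 2 * ∑ k, u k * ε k ≤ 1 := by
  have hpr : ∏ k, ε k = κ ∨ ∏ k, ε k = -κ := by
    have h1 : (∏ k, ε k) = 1 ∨ (∏ k, ε k) = -1 := by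
      rw [Fin.prod_univ_four]
      exact pm_mul (pm_mul (pm_mul (hε _) (hε _)) (hε _)) (hε _)
    rcases h1 with h1 | h1 <;> rcases hP.pm with h2 | h2 <;> rw [h1, h2] <;> norm_num
  have hfac : ∀ t : ℝ, ∑ k, u k * (t / 2 * ε k) = t / 2 * ∑ k, u k * ε k := by
    intro t
    rw [Finset.mul_sum]
    exact Finset.sum_congr rfl fun k _ => by ring
  rcases hpr with h1 | h1
  · obtain ⟨v, hv⟩ := hP.hA ε hε h1
    have h2 : ∑ k, u k * (tA / 2 * ε k) ≤ 1 := hG.le _ h _ hv
    rw [hfac] at h2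
    have h3 : tC / 2 * ∑ k, u k * ε k ≤ tA / 2 * ∑ k, u k * ε k :=
      mul_le_mul_of_nonneg_right (by linarith [hP.le2]) h0
    linarith
  · obtain ⟨v, hv⟩ := hP.hC ε hε h1
    have h2 : ∑ k, u k * (tC / 2 * ε k) ≤ 1 := hG.le _ h _ hv
    rw [hfac] at h2
    exact h2

/-- At a multiple of `± e_j` the normals have `∑ |u k| ≤ 2 |u j|`. -/
theorem B_ray {G : Set ((Fin 4 → ℝ) × (Fin 4 → ℝ))} (hG : Dual4 G) {tB tA tC κ : ℝ} (hP : Pos G tB tA tC κ)
    {x u s : Fin 4 → ℝ} (h : (x, u) ∈ G) (hs : Sg s) (hsx : ∀ i, s i * x i = |x i|) {j : Fin 4}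
    (hj : ∀ k, k ≠ j → x k = 0) : 0 < s j * u j ∧ ∑ k, |u k| ≤ 2 * (s j * u j) := by
  have hone : u j * x j = 1 := by
    have h1 : ∑ k, u k * x k = 1 := hG.one _ h
    rw [Finset.sum_eq_single j (fun k _ hk => by rw [hj k hk, mul_zero]) (by simp)] at h1
    exact h1
  have hss := pm_mul_self (hs j)
  have hX : 0 ≤ |x j| := abs_nonneg _
  have hUX : (s j * u j) * |x j| = 1 := by
    rw [← hsx j]
    linear_combination (u j * x j) * hss + hone
  have hXpos : 0 < |x j| := lt_of_le_of_ne hX fun he => by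
    rw [← he, mul_zero] at hUX
    exact zero_ne_one hUX
  have hUpos : 0 < s j * u j := by
    by_contra hc
    have := mul_nonpos_of_nonpos_of_nonneg (not_lt.1 hc) hX
    linarith
  -- `|x j| ≤ tB`
  have hXt : |x j| ≤ tB := by
    obtain ⟨v, hv⟩ := hP.hB j (s j) (hs j)
    have h1 : ∑ k, v k * (if k = j then s j * tB else 0) = 1 := hG.one _ hv
    have h2 : ∑ k, v k * x k ≤ 1 := hG.le _ hv _ h
    rw [Finset.sum_eq_single j (fun k _ hk => by rw [hj k hk, mul_zero]) (by simp)] at h2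
    have h3 : v j * (s j * tB) = 1 := by simpa using h1
    have h4 : x j = s j * |x j| := by
      rw [← hsx j, ← mul_assoc, hss, one_mul]
    have h5 : v j * (s j * |x j|) ≤ 1 := by rw [← h4]; exact h2
    have h6 : 0 < v j * s j := by
      by_contra hc
      have := mul_nonpos_of_nonpos_of_nonneg (not_lt.1 hc) hP.pos.le
      linarith
    by_contra hc
    have := mul_lt_mul_of_pos_left (not_le.1 hc) h6
    linarith
  refine ⟨hUpos, ?_⟩
  obtain ⟨ε, hε, hεu⟩ := exists_signs u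
  have h1 : ∑ k, u k * ε k = ∑ k, |u k| := Finset.sum_congr rfl fun k _ => by rw [← hεu k]; ring
  have h2 := eps_le hG hP h hε (by rw [h1]; exact Finset.sum_nonneg fun k _ => abs_nonneg _)
  rw [h1] at h2
  have h3 : tB ≤ tC := hP.le1
  have h0 : 0 ≤ ∑ k, |u k| := Finset.sum_nonneg fun k _ => abs_nonneg _
  have h4 : |x j| / 2 * ∑ k, |u k| ≤ 1 := by
    have := mul_le_mul_of_nonneg_right (show |x j| / 2 ≤ tC / 2 by linarith) h0
    linarith
  by_contra hc
  have := mul_lt_mul_of_pos_left (not_le.1 hc) (show 0 < |x j| / 2 by linarith)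
  linarith

/-- The flipped sign vector. -/
def fl (j : Fin 4) (s : Fin 4 → ℝ) : Fin 4 → ℝ := fun k => if k = j then -s k else s k

theorem sg_fl {s : Fin 4 → ℝ} (hs : Sg s) (j : Fin 4) : Sg (fl j s) := by
  intro k
  unfold fl
  split_ifs
  · exact pm_neg (hs k)
  · exact hs k

theorem prod_fl (s : Fin 4 → ℝ) (j : Fin 4) : ∏ k, fl j s k = -∏ k, s k := by
  rw [← Finset.mul_prod_erase univ _ (Finset.mem_univ j), ← Finset.mul_prod_erase univ s (Finset.mem_univ j)]
  have h1 : ∏ k ∈ univ.erase j, fl j s k = ∏ k ∈ univ.erase j, s k :=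
    Finset.prod_congr rfl fun k hk => by simp [fl, Finset.ne_of_mem_erase hk]
  rw [h1]
  simp [fl]

/-- A vector of the first family works if its weighted signs do. -/
theorem works_inl {G : Set ((Fin 4 → ℝ) × (Fin 4 → ℝ))} {x s : Fin 4 → ℝ} (hs : Sg s) {e κ : ℝ}
    {b : Fin 3 → Bool} (h : ∀ u, (x, u) ∈ G → 0 < ∑ k, (s k * u k) * (s k * (eo κ b k * wt e b k))) :
    Works G x (zz e κ (Sum.inl b)) := by
  intro u hu
  rw [sum_signs hs]
  exact h u hu

theorem works_inr {G : Set ((Fin 4 → ℝ) × (Fin 4 → ℝ))} {x s : Fin 4 → ℝ} (hs : Sg s) {e κ : ℝ}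
    {p : Bool × Bool} (h : ∀ u, (x, u) ∈ G → 0 < ∑ k, (s k * u k) * (s k * zz e κ (Sum.inr p) k)) :
    Works G x (zz e κ (Sum.inr p)) := by
  intro u hu
  rw [sum_signs hs]
  exact h u hu

theorem zz_inr_zero (e κ : ℝ) (p : Bool × Bool) : zz e κ (Sum.inr p) 0 = 4 * sg p.1 := rfl

theorem zz_inr_ne (e κ : ℝ) (p : Bool × Bool) {k : Fin 4} (hk : k ≠ 0) : zz e κ (Sum.inr p) k = sg p.2 := by
  obtain ⟨m, rfl⟩ := Fin.exists_succ_eq.2 hk
  rfl

theorem others : ∀ p i : Fin 4, p ≠ i → ∃ j l : Fin 4, p ≠ j ∧ p ≠ l ∧ i ≠ j ∧ i ≠ l ∧ j ≠ l := by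
  decide

theorem serve {G : Set ((Fin 4 → ℝ) × (Fin 4 → ℝ))} (hG : Dual4 G) {tB tA tC κ : ℝ} (hP : Pos G tB tA tC κ)
    (hlt : tC < 2 * tB) : ∃ e : ℝ, ∀ q ∈ G, ∃ i, Works G q.1 (zz e κ i) := by
  have htB := hP.pos
  have htC : 0 < tC := lt_of_lt_of_le htB hP.le1
  obtain ⟨e, he0, he, hmar⟩ : ∃ e : ℝ, 0 < e ∧ e ≤ 1 / 8 ∧ (1 + 4 * e) * tC < 2 * tB := by
    refine ⟨min (1 / 8) ((2 * tB - tC) / (8 * tC)), ?_, min_le_left _ _, ?_⟩
    · apply lt_min (by norm_num)
      apply div_pos <;> linarith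
    · have h1 : min (1 / 8) ((2 * tB - tC) / (8 * tC)) ≤ (2 * tB - tC) / (8 * tC) := min_le_right _ _
      have h2 : (2 * tB - tC) / (8 * tC) * tC = (2 * tB - tC) / 8 := by field_simp
      have h3 := mul_le_mul_of_nonneg_right h1 htC.le
      rw [h2] at h3
      linarith
  refine ⟨e, ?_⟩
  rintro ⟨x, u₀⟩ hq
  show ∃ i, Works G x (zz e κ i)
  obtain ⟨s, hs, hsx⟩ := exists_signs x
  have hch : ∀ u, (x, u) ∈ G → Cham (fun i => |x i|) (fun i => s i * u i) := fun u hu => cham hG hu hs hsx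
  have hss : ∀ k, s k * s k = 1 := fun k => pm_mul_self (hs k)
  -- T1
  by_cases hT1 : ∀ k, k ≠ 0 → |x k| < |x 0|
  · obtain ⟨b, hb⟩ := exists_sg (hs 0)
    refine ⟨Sum.inr (b, true), works_inr hs fun u hu => ?_⟩
    rw [sum4 _ (show (0 : Fin 4) ≠ 1 by decide) (show (0 : Fin 4) ≠ 2 by decide)
      (show (0 : Fin 4) ≠ 3 by decide) (show (1 : Fin 4) ≠ 2 by decide) (show (1 : Fin 4) ≠ 3 by decide)
      (show (2 : Fin 4) ≠ 3 by decide)]
    have h0 : s 0 * zz e κ (Sum.inr (b, true)) 0 = 4 := by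
      rw [zz_inr_zero, hb]
      linear_combination 4 * hss 0
    have hk : ∀ k : Fin 4, k ≠ 0 → |s k * zz e κ (Sum.inr (b, true)) k| ≤ 1 := fun k hk => by
      rw [zz_inr_ne _ _ _ hk, abs_mul, pm_abs (hs k), pm_abs (sg_cases _), mul_one]
    rw [h0]
    exact ineq_T1 (hch u hu) (p := 0) (i := 1) (j := 2) (l := 3) (by decide) (by decide) (by decide)
      (by decide) (by decide) (by decide) hT1 (hk 1 (by decide)) (hk 2 (by decide)) (hk 3 (by decide))
  -- T2
  by_cases hT2 : ∃ i, i ≠ 0 ∧ ∀ k, k ≠ 0 → k ≠ i → |x k| < |x 0| ∧ |x k| < |x i|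
  · obtain ⟨i, hi0, hi⟩ := hT2
    obtain ⟨j, l, h2, h3, h4, h5, h6⟩ := others 0 i hi0.symm
    obtain ⟨b, hb⟩ := exists_sg (hs 0)
    obtain ⟨b', hb'⟩ := exists_sg (hs i)
    refine ⟨Sum.inr (b, b'), works_inr hs fun u hu => ?_⟩
    rw [sum4 _ hi0.symm h2 h3 h4 h5 h6]
    have h0 : s 0 * zz e κ (Sum.inr (b, b')) 0 = 4 := by
      rw [zz_inr_zero, hb]
      linear_combination 4 * hss 0
    have hi1 : s i * zz e κ (Sum.inr (b, b')) i = 1 := by
      rw [zz_inr_ne _ _ _ hi0]
      show s i * sg b' = 1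
      rw [hb', hss]
    have hk : ∀ k : Fin 4, k ≠ 0 → |s k * zz e κ (Sum.inr (b, b')) k| ≤ 1 := fun k hk => by
      rw [zz_inr_ne _ _ _ hk, abs_mul, pm_abs (hs k), pm_abs (sg_cases _), mul_one]
    rw [h0, hi1]
    exact ineq_T2 (hch u hu) hi0.symm h2 h3 h4 h5 h6 (hi j h2.symm h4.symm).1 (hi l h3.symm h5.symm).1
      (hi j h2.symm h4.symm).2 (hi l h3.symm h5.symm).2 (hk j h2.symm) (hk l h3.symm)
  by_cases hz : ∃ j, x j = 0
  · obtain ⟨j0, hj0⟩ := hz
    -- the single coordinate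
    by_cases hsingle : ∃ j, ∀ k, k ≠ j → x k = 0
    · obtain ⟨j, hj⟩ := hsingle
      have hjx : x j ≠ 0 := by
        intro h0
        have h1 : ∑ k, u₀ k * x k = 1 := hG.one _ hq
        have h2 : ∀ k, x k = 0 := fun k => by
          by_cases hk : k = j
          · rw [hk]; exact h0
          · exact hj k hk
        simp [h2] at h1
      have hj' : j ≠ 0 := by
        intro h0
        apply hT1
        intro k hk
        rw [hj k (by rw [h0]; exact hk), abs_zero, ← h0]
        exact abs_pos.2 hjx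
      obtain ⟨m, rfl⟩ := Fin.exists_succ_eq.2 hj'
      obtain ⟨σ, hσ⟩ := exists_sg (hs m.succ)
      obtain ⟨b, hb1, hb2⟩ := exists_bump m σ
      refine ⟨Sum.inl b, works_inl hs fun u hu => ?_⟩
      obtain ⟨hU0, hU⟩ := B_ray hG hP hu hs hsx hj
      have hε := sg_eo hP.pm b
      rw [← Finset.add_sum_erase univ _ (Finset.mem_univ m.succ)]
      have h1 : s m.succ * (eo κ b m.succ * wt e b m.succ) = 1 := by
        have e1 : eo κ b m.succ = s m.succ := by
          show sg (b m) = s m.succ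
          rw [hb2, hσ]
        have e2 : wt e b m.succ = 1 := by
          unfold wt
          rw [Fin.cons_succ, if_pos hb1.symm]
        rw [e1, e2, mul_one, hss]
      have h2 : ∀ k ∈ univ.erase m.succ, -((1 - e) * |u k|) ≤ (s k * u k) * (s k * (eo κ b k * wt e b k)) := by
        intro k hk
        have e1 : (s k * u k) * (s k * (eo κ b k * wt e b k)) = u k * (eo κ b k * wt e b k) := by
          linear_combination (u k * (eo κ b k * wt e b k)) * hss k
        rw [e1]
        have e2 : |eo κ b k * wt e b k| ≤ 1 - e := by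
          rw [abs_mul, pm_abs (hε k), one_mul]
          by_cases hk0 : k = 0
          · rw [hk0, wt_zero, abs_of_pos he0]; linarith
          · obtain ⟨n, rfl⟩ := Fin.exists_succ_eq.2 hk0
            have hne : n ≠ hh b := fun h => by
              rw [hb1] at h
              exact Finset.ne_of_mem_erase hk (by rw [h])
            unfold wt
            rw [Fin.cons_succ, if_neg hne, abs_of_pos (by linarith)]
        have e3 : |u k * (eo κ b k * wt e b k)| ≤ (1 - e) * |u k| := by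
          rw [abs_mul, mul_comm]
          exact mul_le_mul_of_nonneg_right e2 (abs_nonneg _)
        exact (abs_le.1 e3).1
      have h3 := Finset.sum_le_sum h2
      rw [Finset.sum_neg_distrib, ← Finset.mul_sum] at h3
      have h4 : |u m.succ| + ∑ k ∈ univ.erase m.succ, |u k| = ∑ k, |u k| :=
        Finset.add_sum_erase univ (fun k => |u k|) (Finset.mem_univ m.succ)
      have h5 : |u m.succ| = s m.succ * u m.succ := by
        have : |s m.succ * u m.succ| = |u m.succ| := by rw [abs_mul, pm_abs (hs _), one_mul]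
        rw [← this, abs_of_pos hU0]
      rw [h1, mul_one]
      have h6 : ∑ k ∈ univ.erase m.succ, |u k| ≤ s m.succ * u m.succ := by linarith
      have h7 := mul_le_mul_of_nonneg_left h6 (show 0 ≤ 1 - e by linarith)
      have h8 : 0 < e * (s m.succ * u m.succ) := mul_pos he0 hU0
      linarith
    · -- at least two nonzero coordinates
      have hpm : ∏ k, s k = 1 ∨ ∏ k, s k = -1 := by
        rw [Fin.prod_univ_four]
        exact pm_mul (pm_mul (pm_mul (hs _) (hs _)) (hs _)) (hs _)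
      have hε : Sg (fun k => if k = j0 then s k * (κ * ∏ k, s k) else s k) := by
        intro k
        by_cases hk : k = j0
        · simp only [hk, if_true]
          exact pm_mul (hs _) (pm_mul hP.pm hpm)
        · simp only [hk, if_false]
          exact hs k
      have hεp : ∏ k, (fun k => if k = j0 then s k * (κ * ∏ k, s k) else s k) k = κ := by
        rw [← Finset.mul_prod_erase univ _ (Finset.mem_univ j0)]
        have h1 : ∏ k ∈ univ.erase j0, (fun k => if k = j0 then s k * (κ * ∏ k, s k) else s k) k =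
            ∏ k ∈ univ.erase j0, s k :=
          Finset.prod_congr rfl fun k hk => by simp [Finset.ne_of_mem_erase hk]
        rw [h1]
        simp only [if_true]
        have h2 : s j0 * ∏ k ∈ univ.erase j0, s k = ∏ k, s k :=
          Finset.mul_prod_erase univ s (Finset.mem_univ j0)
        have h3 := pm_mul_self hpm
        calc s j0 * (κ * ∏ k, s k) * ∏ k ∈ univ.erase j0, s k
            = κ * ((∏ k, s k) * (s j0 * ∏ k ∈ univ.erase j0, s k)) := by ring
          _ = κ := by rw [h2, h3, mul_one]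
      obtain ⟨b, hb⟩ := exists_eo hε hεp
      refine ⟨Sum.inl b, works_inl hs fun u hu => ?_⟩
      have hne : ∀ k, 0 < |x k| → k ≠ j0 := fun k hk h => by
        rw [h, hj0, abs_zero] at hk
        exact lt_irrefl _ hk
      have hzk : ∀ k, 0 < |x k| → s k * (eo κ b k * wt e b k) = wt e b k := fun k hk => by
        rw [hb]
        simp only [hne k hk, if_false]
        rw [← mul_assoc, hss, one_mul]
      have hzabs : ∀ k, |s k * (eo κ b k * wt e b k)| = wt e b k := fun k => by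
        rw [abs_mul, abs_mul, pm_abs (hs k), pm_abs (sg_eo hP.pm b k), one_mul, one_mul]
        by_cases hk0 : k = 0
        · rw [hk0, wt_zero, abs_of_pos he0]
        · exact abs_of_pos (by linarith [wt_lo he0 b k hk0])
      refine partial_pos (hch u hu) ⟨j0, by simp [hj0]⟩ ?_ ?_
      · intro k hk
        rw [hzk k hk]
        by_cases hk0 : k = 0
        · rw [hk0, wt_zero]; exact he0
        · linarith [wt_lo he0 b k hk0]
      · have h1 : ∑ j ∈ univ.filter (fun j => |x j| = 0), |s j * (eo κ b j * wt e b j)| =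
            ∑ j, (if |x j| = 0 then wt e b j else 0) := by
          rw [Finset.sum_filter]
          refine Finset.sum_congr rfl fun k _ => ?_
          rw [hzabs]
        have h2 : ∑ i ∈ univ.filter (fun i => 0 < |x i|), s i * (eo κ b i * wt e b i) =
            ∑ i, (if 0 < |x i| then wt e b i else 0) := by
          rw [Finset.sum_filter]
          refine Finset.sum_congr rfl fun k _ => ?_
          by_cases hk : 0 < |x k|
          · rw [if_pos hk, if_pos hk, hzk k hk]
          · rw [if_neg hk, if_neg hk]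
        rw [h1, h2, Fin.sum_univ_four, Fin.sum_univ_four]
        have w0 := wt_zero e b
        have w1 := wt_lo he0 b 1 (by decide)
        have w2 := wt_lo he0 b 2 (by decide)
        have w3 := wt_lo he0 b 3 (by decide)
        have v1 := wt_hi he0 b 1 (by decide)
        have v2 := wt_hi he0 b 2 (by decide)
        have v3 := wt_hi he0 b 3 (by decide)
        have hsg : ∀ j : Fin 4, ¬ ∀ k, k ≠ j → x k = 0 := fun j h => hsingle ⟨j, h⟩
        have hT2' : ∀ i, i ≠ 0 → ¬ ((∀ k, k ≠ 0 → k ≠ i → x k = 0) ∧ x 0 ≠ 0 ∧ x i ≠ 0) := by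
          rintro i hi ⟨a1, a2, a3⟩
          apply hT2
          refine ⟨i, hi, fun k hk hk' => ?_⟩
          rw [a1 k hk hk', abs_zero]
          exact ⟨abs_pos.2 a2, abs_pos.2 a3⟩
        have hall : ¬ ∀ k, x k ≠ 0 := fun h => h j0 hj0
        have hs0 := hsg 0
        have hs1 := hsg 1
        have hs2 := hsg 2
        have hs3 := hsg 3
        have ht1 := hT2' 1 (by decide)
        have ht2 := hT2' 2 (by decide)
        have ht3 := hT2' 3 (by decide)
        simp only [Fin.forall_fin_succ] at hs0 hs1 hs2 hs3 ht1 ht2 ht3 hall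
        simp only [abs_pos, abs_eq_zero]
        by_cases c0 : x 0 = 0 <;> by_cases c1 : x 1 = 0 <;> by_cases c2 : x 2 = 0 <;>
          by_cases c3 : x 3 = 0 <;>
          simp only [c0, c1, c2, c3, not_true_eq_false, not_false_eq_true, if_true, if_false, ne_eq] <;>
          first
          | linarith
          | (exfalso; simp_all)
  -- all coordinates nonzero
  push Not at hz
  have hX : ∀ k, 0 < |x k| := fun k => abs_pos.2 (hz k)
  by_cases hprod : ∏ k, s k = κ
  · obtain ⟨b, hb⟩ := exists_eo hs hprod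
    refine ⟨Sum.inl b, works_inl hs fun u hu => ?_⟩
    have hzk : ∀ k, s k * (eo κ b k * wt e b k) = wt e b k := fun k => by
      rw [hb, ← mul_assoc, hss, one_mul]
    simp only [hzk]
    have h := hch u hu
    refine pair_pos (fun i j hij => h.pair i j hij (by
      have := hX i
      have := hX j
      simpa using add_pos (hX i) (hX j))) (cham_ne h) ?_ ?_
    · intro k
      by_cases hk0 : k = 0
      · rw [hk0, wt_zero]; exact he0
      · linarith [wt_lo he0 b k hk0]
    · intro n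
      have h1 : wt e b n + ∑ k ∈ univ.erase n, wt e b k = ∑ k, wt e b k :=
        Finset.add_sum_erase univ _ (Finset.mem_univ n)
      have h2 : wt e b n ≤ 1 := by
        by_cases hn : n = 0
        · rw [hn, wt_zero]; linarith
        · exact wt_hi he0 b n hn
      rw [Fin.sum_univ_four, wt_zero] at h1
      have w1 := wt_lo he0 b 1 (by decide)
      have w2 := wt_lo he0 b 2 (by decide)
      have w3 := wt_lo he0 b 3 (by decide)
      linarith
  have hprod' : ∏ k, s k = -κ := by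
    have hpm : ∏ k, s k = 1 ∨ ∏ k, s k = -1 := by
      rw [Fin.prod_univ_four]
      exact pm_mul (pm_mul (pm_mul (hs _) (hs _)) (hs _)) (hs _)
    rcases hpm with h1 | h1 <;> rcases hP.pm with h2 | h2
    · exact absurd (by rw [h1, h2]) hprod
    · rw [h1, h2]; norm_num
    · rw [h1, h2]
    · exact absurd (by rw [h1, h2]) hprod
  have hflip : ∀ j, ∃ b, ∀ k, s k * (eo κ b k * wt e b k) = if k = j then -wt e b k else wt e b k := by
    intro j
    obtain ⟨b, hb⟩ := exists_eo (sg_fl hs j) (κ := κ) (by rw [prod_fl, hprod', neg_neg])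
    refine ⟨b, fun k => ?_⟩
    rw [hb]
    unfold fl
    split_ifs
    · linear_combination (-(wt e b k)) * hss k
    · linear_combination (wt e b k) * hss k
  by_cases hmax : ∃ k, |x 0| < |x k|
  · -- flip 0
    obtain ⟨b, hb⟩ := hflip 0
    refine ⟨Sum.inl b, works_inl hs fun u hu => ?_⟩
    have h := ineq_flip (hch u hu) hX hmax he0 he (w := wt e b) (wt_zero e b)
      (fun k hk => wt_lo he0 b k hk) (fun k hk => wt_hi he0 b k hk)
    rw [← Finset.add_sum_erase univ _ (Finset.mem_univ (0 : Fin 4)), hb 0, if_pos rfl]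
    have h1 : ∑ k ∈ univ.erase (0 : Fin 4), (s k * u k) * (s k * (eo κ b k * wt e b k)) =
        ∑ k ∈ univ.erase (0 : Fin 4), (s k * u k) * wt e b k :=
      Finset.sum_congr rfl fun k hk => by rw [hb k, if_neg (Finset.ne_of_mem_erase hk)]
    rw [h1]
    have h2 : (s 0 * u 0) * -wt e b 0 = -((s 0 * u 0) * wt e b 0) := by ring
    rw [h2]
    exact h
  push Not at hmax
  by_cases hlow : ∃ j, |x j| < |x 0|
  · obtain ⟨j, hj⟩ := hlow
    have hj0 : j ≠ 0 := fun h => by rw [h] at hj; exact lt_irrefl _ hj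
    obtain ⟨i, l, h2, h3, h4, h5, h6⟩ := others 0 j hj0.symm
    -- 0 ≠ i, 0 ≠ l, j ≠ i, j ≠ l, i ≠ l
    have key : ∀ i l : Fin 4, 0 ≠ i → 0 ≠ l → j ≠ i → j ≠ l → i ≠ l → |x i| = |x 0| := by
      intro i l h2 h3 h4 h5 h6
      by_contra hne
      have hi : |x i| < |x 0| := lt_of_le_of_ne (hmax i) hne
      rcases (hmax l).eq_or_lt with hl | hl
      · apply hT2
        refine ⟨l, h3.symm, fun k hk hk' => ?_⟩
        rcases eq_of_four hj0.symm h2 h3 h4 h5 h6 k with r | r | r | r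
        · exact absurd r hk
        · rw [r, hl]; exact ⟨hj, hj⟩
        · rw [r, hl]; exact ⟨hi, hi⟩
        · exact absurd r hk'
      · apply hT1
        intro k hk
        rcases eq_of_four hj0.symm h2 h3 h4 h5 h6 k with r | r | r | r
        · exact absurd r hk
        · rw [r]; exact hj
        · rw [r]; exact hi
        · rw [r]; exact hl
    have hi := key i l h2 h3 h4 h5 h6
    have hl := key l i h3 h2 h5 h4 h6.symm
    obtain ⟨b, hb⟩ := hflip j
    refine ⟨Sum.inl b, works_inl hs fun u hu => ?_⟩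
    have h := ineq_low (hch u hu) (p := 0) (i := i) (j := j) (l := l) h2 hj0.symm h3 h4.symm h6 h5 hj
      (by show |x j| < |x i|; rw [hi]; exact hj) (by show |x j| < |x l|; rw [hl]; exact hj) he0 he
      (w := wt e b) (wt_zero e b) (fun k hk => wt_lo he0 b k hk) (fun k hk => wt_hi he0 b k hk)
    rw [sum4 _ h2 hj0.symm h3 h4.symm h6 h5, hb 0, hb i, hb j, hb l, if_neg hj0.symm, if_neg h4.symm,
      if_pos rfl, if_neg h5.symm]
    have e1 : (s 0 * u 0) * wt e b 0 + (s i * u i) * wt e b i + (s j * u j) * -wt e b j +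
        (s l * u l) * wt e b l = (s 0 * u 0) * wt e b 0 + (s i * u i) * wt e b i -
        (s j * u j) * wt e b j + (s l * u l) * wt e b l := by ring
    rw [e1]
    exact h
  · -- all equal
    push Not at hlow
    have heq : ∀ k, |x k| = |x 0| := fun k => le_antisymm (hmax k) (hlow k)
    obtain ⟨b, hb⟩ := hflip 0
    refine ⟨Sum.inl b, works_inl hs fun u hu => ?_⟩
    have hxk : ∀ k, x k = s k * |x 0| := fun k => by
      rw [← heq k, ← hsx k, ← mul_assoc, hss, one_mul]
    have hT := hX 0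
    -- `|x 0| ≤ tC / 2`
    have hTC : |x 0| ≤ tC / 2 := by
      obtain ⟨v, hv⟩ := hP.hC s hs hprod'
      have h1 : ∑ k, v k * (tC / 2 * s k) = 1 := hG.one _ hv
      have h2 : ∑ k, v k * x k ≤ 1 := hG.le _ hv _ hu
      have h3 : ∑ k, v k * (tC / 2 * s k) = tC / 2 * ∑ k, v k * s k := by
        rw [Finset.mul_sum]; exact Finset.sum_congr rfl fun k _ => by ring
      have h4 : ∑ k, v k * x k = |x 0| * ∑ k, v k * s k := by
        rw [Finset.mul_sum]; exact Finset.sum_congr rfl fun k _ => by rw [hxk k]; ring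
      rw [h3] at h1
      rw [h4] at h2
      have h5 : 0 < ∑ k, v k * s k := by
        by_contra hc
        have := mul_nonpos_of_nonneg_of_nonpos (show 0 ≤ tC / 2 by linarith) (not_lt.1 hc)
        linarith
      by_contra hc
      have := mul_lt_mul_of_pos_right (not_le.1 hc) h5
      linarith
    have hsumU : |x 0| * ∑ k, s k * u k = 1 := by
      have h1 : ∑ k, u k * x k = 1 := hG.one _ hu
      rw [← h1, Finset.mul_sum]
      exact Finset.sum_congr rfl fun k _ => by rw [hxk k]; ring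
    have hS0 : 0 < ∑ k, s k * u k := by
      by_contra hc
      have := mul_nonpos_of_nonneg_of_nonpos hT.le (not_lt.1 hc)
      linarith
    have hS : 1 ≤ tC / 2 * ∑ k, s k * u k := by
      have := mul_le_mul_of_nonneg_right hTC hS0.le
      linarith
    have hU : ∀ k, s k * u k * tB ≤ 1 := fun k => u_le hG hP hu k (hs k)
    have hW : ∀ k, k ≠ 0 → (1 - wt e b k) * (s k * u k * tB) ≤ e := by
      intro k hk
      have a1 := wt_lo he0 b k hk
      have a2 := wt_hi he0 b k hk
      have a3 := mul_le_mul_of_nonneg_left (hU k) (show 0 ≤ 1 - wt e b k by linarith)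
      linarith
    have w1 := hW 1 (by decide)
    have w2 := hW 2 (by decide)
    have w3 := hW 3 (by decide)
    have w0 := mul_le_mul_of_nonneg_left (hU 0) (show 0 ≤ 1 + e by linarith)
    simp only [Fin.sum_univ_four] at hS ⊢
    rw [hb 0, hb 1, hb 2, hb 3, if_pos rfl, if_neg (by decide), if_neg (by decide), if_neg (by decide),
      wt_zero]
    -- multiply by `tB`
    have hgoal : 0 < ((s 0 * u 0) * -e + (s 1 * u 1) * wt e b 1 + (s 2 * u 2) * wt e b 2 +
        (s 3 * u 3) * wt e b 3) * tB := by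
      have h1 : (2 / tC) * tB ≤ (s 0 * u 0 + s 1 * u 1 + s 2 * u 2 + s 3 * u 3) * tB := by
        apply mul_le_mul_of_nonneg_right _ htB.le
        rw [div_le_iff₀ htC]
        linarith
      have h2 : 1 + 4 * e < (2 / tC) * tB := by
        rw [div_mul_eq_mul_div, lt_div_iff₀ htC]
        exact hmar
      linarith
    exact (pos_iff_pos_of_mul_pos hgoal).2 htB

end Pool.Agent.Lib.MP_5e7226_co.D4
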