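import Pool.Agent.Lib.MP_5e7226_co.D4.Serve
import Pool.Agent.Lib.MP_5e7226_co.DX.D4Defs

set_option autoImplicit false

/-! `D_4`: radii, orbits, the cube, triality; the core theorem. -/

namespace Pool.Agent.Lib.MP_5e7226_co.D4

open Finset
open Pool.Agent.Lib.MP_5e7226_co.DX (Works Cham CubeData cham_ne partial_pos pair_pos Hm Nm img)

/-! ### Orbits -/

theorem refl_rt (i j : Fin 4) (hij : i ≠ j) (e : ℝ) (x : Fin 4 → ℝ) (k : Fin 4) :
    refl (rt i j e) x k = x k - (x i - e * x j) * rt i j e k := by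
  unfold refl
  rw [sum_rt i j hij]

theorem orbit_B {G : Set ((Fin 4 → ℝ) × (Fin 4 → ℝ))} (hG : Dual4 G) {t : ℝ}
    (h : ∃ u, ((fun k : Fin 4 => if k = 0 then t else 0), u) ∈ G) (j : Fin 4) {σ : ℝ} (hσ : σ = 1 ∨ σ = -1) :
    ∃ u, ((fun k : Fin 4 => if k = j then σ * t else 0), u) ∈ G := by
  have step : ∀ (i j : Fin 4), i ≠ j → ∀ σ : ℝ, (σ = 1 ∨ σ = -1) →
      (∃ u, ((fun k : Fin 4 => if k = i then t else 0), u) ∈ G) →
      ∃ u, ((fun k : Fin 4 => if k = j then σ * t else 0), u) ∈ G := by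
    rintro i j hij σ hσ ⟨u, hu⟩
    have h1 := hG.inv _ (root_rt i j hij hσ) _ hu
    refine ⟨refl (rt i j σ) u, ?_⟩
    convert h1 using 2
    funext k
    rw [refl_rt i j hij]
    by_cases c1 : k = i
    · subst c1
      simp [rt, hij, hij.symm]
    · by_cases c2 : k = j
      · subst c2
        simp [rt, c1, hij, hij.symm, mul_comm]
      · simp [rt, c1, c2]
  by_cases hj : j = 0
  · subst hj
    have h1 := step 0 1 (by decide) 1 (Or.inl rfl) h
    simp only [one_mul] at h1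
    exact step 1 0 (by decide) σ hσ h1
  · exact step 0 j (fun h => hj h.symm) σ hσ h

theorem step_S {G : Set ((Fin 4 → ℝ) × (Fin 4 → ℝ))} (hG : Dual4 G) {t : ℝ} {s : Fin 4 → ℝ} (hs : Sg s)
    (h : ∃ u, ((fun k : Fin 4 => t / 2 * s k), u) ∈ G) {i j : Fin 4} (hij : i ≠ j) :
    ∃ u, ((fun k : Fin 4 => t / 2 * fl i (fl j s) k), u) ∈ G := by
  obtain ⟨u, hu⟩ := h
  have he : -(s i * s j) = 1 ∨ -(s i * s j) = -1 := pm_neg (pm_mul (hs i) (hs j))
  have h1 := hG.inv _ (root_rt i j hij he) _ hu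
  refine ⟨refl (rt i j (-(s i * s j))) u, ?_⟩
  convert h1 using 2
  funext k
  rw [refl_rt i j hij]
  have h2 := pm_mul_self (hs j)
  have h3 := pm_mul_self (hs i)
  by_cases h4 : k = i
  · subst h4
    simp only [fl, rt, if_true, if_neg hij]
    linear_combination (t / 2 * s k) * h2
  · by_cases h5 : k = j
    · subst h5
      simp only [fl, rt, if_true, if_neg h4]
      linear_combination (t / 2 * s k * (1 + s k * s k)) * h3 + (t / 2 * s k) * h2
    · simp [fl, rt, h4, h5]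

theorem orbit_S {G : Set ((Fin 4 → ℝ) × (Fin 4 → ℝ))} (hG : Dual4 G) {t : ℝ} {s0 : Fin 4 → ℝ} (hs0 : Sg s0)
    (h : ∃ u, ((fun k : Fin 4 => t / 2 * s0 k), u) ∈ G) {s : Fin 4 → ℝ} (hs : Sg s)
    (hp : ∏ k, s k = ∏ k, s0 k) : ∃ u, ((fun k : Fin 4 => t / 2 * s k), u) ∈ G := by
  have adj : ∀ (k : Fin 4), k ≠ 0 → ∀ s1 : Fin 4 → ℝ, Sg s1 →
      (∃ u, ((fun k : Fin 4 => t / 2 * s1 k), u) ∈ G) →
      ∃ s2 : Fin 4 → ℝ, Sg s2 ∧ (∃ u, ((fun k : Fin 4 => t / 2 * s2 k), u) ∈ G) ∧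
        ∏ k, s2 k = ∏ k, s1 k ∧ s2 k = s k ∧ ∀ m, m ≠ 0 → m ≠ k → s2 m = s1 m := by
    intro k hk s1 hs1 h1
    by_cases he : s1 k = s k
    · exact ⟨s1, hs1, h1, rfl, he, fun m _ _ => rfl⟩
    · refine ⟨fl 0 (fl k s1), sg_fl (sg_fl hs1 k) 0, step_S hG hs1 h1 hk.symm, ?_, ?_, ?_⟩
      · rw [prod_fl, prod_fl, neg_neg]
      · simp only [fl, if_neg hk, if_true]
        rcases hs1 k with h2 | h2 <;> rcases hs k with h3 | h3
        · exact absurd (by rw [h2, h3]) he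
        · rw [h2, h3]
        · rw [h2, h3]; norm_num
        · exact absurd (by rw [h2, h3]) he
      · intro m hm hmk
        simp [fl, hm, hmk]
  obtain ⟨s1, a1, a2, a3, a4, a5⟩ := adj 1 (by decide) s0 hs0 h
  obtain ⟨s2, b1, b2, b3, b4, b5⟩ := adj 2 (by decide) s1 a1 a2
  obtain ⟨s3, c1, c2, c3, c4, c5⟩ := adj 3 (by decide) s2 b1 b2
  have e1 : s3 1 = s 1 := by rw [c5 1 (by decide) (by decide), b5 1 (by decide) (by decide), a4]
  have e2 : s3 2 = s 2 := by rw [c5 2 (by decide) (by decide), b4]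
  have e3 : s3 3 = s 3 := c4
  have e0 : s3 0 = s 0 := by
    have h1 : ∏ k, s3 k = ∏ k, s k := by rw [c3, b3, a3, hp]
    rw [Fin.prod_univ_four, Fin.prod_univ_four, e1, e2, e3] at h1
    have h2 : s 1 ≠ 0 := by rcases hs 1 with h | h <;> rw [h] <;> norm_num
    have h3 : s 2 ≠ 0 := by rcases hs 2 with h | h <;> rw [h] <;> norm_num
    have h4 : s 3 ≠ 0 := by rcases hs 3 with h | h <;> rw [h] <;> norm_num
    exact mul_right_cancel₀ h2 (mul_right_cancel₀ h3 (mul_right_cancel₀ h4 h1))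
  have : s3 = s := by
    funext k
    fin_cases k
    · exact e0
    · exact e1
    · exact e2
    · exact e3
  rw [← this]
  exact c2

/-! ### The radii -/

/-- The sign vector `(-1, 1, 1, 1)`. -/
def om : Fin 4 → ℝ := fun k => if k = 0 then -1 else 1

theorem sg_om : Sg om := by
  intro k
  unfold om
  split_ifs <;> simp

theorem prod_om : ∏ k, om k = -1 := by
  rw [Fin.prod_univ_four]
  simp [om]

/-- The radii. -/
structure Rad (G : Set ((Fin 4 → ℝ) × (Fin 4 → ℝ))) (a b c : ℝ) : Prop where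
  a0 : 0 < a
  b0 : 0 < b
  c0 : 0 < c
  ha : ∃ u, ((fun k : Fin 4 => if k = 0 then a else 0), u) ∈ G
  hb : ∃ u, ((fun _ : Fin 4 => b / 2 * 1), u) ∈ G
  hc : ∃ u, ((fun k : Fin 4 => c / 2 * om k), u) ∈ G

theorem exists_rad {G : Set ((Fin 4 → ℝ) × (Fin 4 → ℝ))} (hG : Dual4 G) : ∃ a b c, Rad G a b c := by
  obtain ⟨a, ha0, ua, ha⟩ := hG.ray (fun k => if k = 0 then 1 else 0) (fun h => by
    have := congrFun h 0
    simp at this)
  obtain ⟨b, hb0, ub, hb⟩ := hG.ray (fun _ => 1) (fun h => by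
    have := congrFun h 0
    simp at this)
  obtain ⟨c, hc0, uc, hc⟩ := hG.ray om (fun h => by
    have := congrFun h 0
    simp [om] at this)
  refine ⟨a, 2 * b, 2 * c, ha0, by linarith, by linarith, ⟨ua, ?_⟩, ⟨ub, ?_⟩, ⟨uc, ?_⟩⟩
  · convert ha using 2
    funext k
    split_ifs <;> simp
  · convert hb using 2
    funext k
    ring
  · convert hc using 2
    funext k
    ring

theorem pos_of_rad {G : Set ((Fin 4 → ℝ) × (Fin 4 → ℝ))} (hG : Dual4 G) {a b c : ℝ} (h : Rad G a b c)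
    (hab : a ≤ b) (hac : a ≤ c) : ∃ tA tC κ, Pos G a tA tC κ := by
  have h1 : ∀ s : Fin 4 → ℝ, Sg s → ∏ k, s k = 1 → ∃ u, ((fun k : Fin 4 => b / 2 * s k), u) ∈ G :=
    fun s hs hp => orbit_S hG (s0 := fun _ => 1) (fun _ => Or.inl rfl) h.hb hs (by rw [hp]; simp)
  have h2 : ∀ s : Fin 4 → ℝ, Sg s → ∏ k, s k = -1 → ∃ u, ((fun k : Fin 4 => c / 2 * s k), u) ∈ G :=
    fun s hs hp => orbit_S hG sg_om h.hc hs (by rw [hp, prod_om])
  rcases le_total c b with hcb | hbc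
  · exact ⟨b, c, 1, Or.inl rfl, h.a0, hac, hcb, fun j σ hσ => orbit_B hG h.ha j hσ, h1,
      fun s hs hp => h2 s hs hp⟩
  · exact ⟨c, b, -1, Or.inr rfl, h.a0, hab, hbc, fun j σ hσ => orbit_B hG h.ha j hσ, h2,
      fun s hs hp => h1 s hs (by rw [hp]; norm_num)⟩

/-! ### The cube -/

theorem cube_of_pos {G : Set ((Fin 4 → ℝ) × (Fin 4 → ℝ))} (hG : Dual4 G) {tB tA tC κ : ℝ}
    (hP : Pos G tB tA tC κ) (hge : 2 * tB ≤ tC) : CubeData G tB := by
  have htB := hP.pos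
  obtain ⟨u, hu⟩ := hP.hB 0 1 (Or.inl rfl)
  have h1 : u 0 * tB = 1 := by
    have h2 : ∑ k, u k * (if k = 0 then 1 * tB else 0) = 1 := hG.one _ hu
    simpa using h2
  have hu0 : 0 < u 0 := by
    by_contra hc
    have := mul_nonpos_of_nonpos_of_nonneg (not_lt.1 hc) htB.le
    linarith
  obtain ⟨ε, hε, hεu⟩ := exists_signs u
  have h3 : ∑ k, u k * ε k = ∑ k, |u k| := Finset.sum_congr rfl fun k _ => by rw [← hεu k]; ring
  have h4 := eps_le hG hP hu hε (by rw [h3]; exact Finset.sum_nonneg fun k _ => abs_nonneg _)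
  rw [h3] at h4
  have h5 : |u 0| + ∑ k ∈ univ.erase 0, |u k| = ∑ k, |u k| :=
    Finset.add_sum_erase univ (fun k => |u k|) (Finset.mem_univ 0)
  rw [abs_of_pos hu0] at h5
  have h6 : 0 ≤ ∑ k ∈ univ.erase (0 : Fin 4), |u k| := Finset.sum_nonneg fun k _ => abs_nonneg _
  have h7 : tB * ∑ k, |u k| ≤ tC / 2 * ∑ k, |u k| :=
    mul_le_mul_of_nonneg_right (by linarith) (Finset.sum_nonneg fun k _ => abs_nonneg _)
  have h8 : tB * ∑ k ∈ univ.erase (0 : Fin 4), |u k| ≤ 0 := by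
    rw [← h5] at h7 h4
    linarith
  have h9 : ∑ k ∈ univ.erase (0 : Fin 4), |u k| = 0 := by
    apply le_antisymm _ h6
    by_contra hc
    have := mul_pos htB (not_le.1 hc)
    linarith
  have huk : ∀ k, k ≠ 0 → u k = 0 := fun k hk => by
    have := (Finset.sum_eq_zero_iff_of_nonneg (fun k _ => abs_nonneg (u k))).1 h9 k
      (Finset.mem_erase.2 ⟨hk, Finset.mem_univ _⟩)
    exact abs_eq_zero.1 this
  have htC : tC = 2 * tB := by
    rw [← h5, h9, add_zero] at h4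
    apply le_antisymm _ hge
    by_contra hc
    have := mul_lt_mul_of_pos_right (not_le.1 hc) hu0
    linarith
  have htA : tA = 2 * tB := by
    apply le_antisymm _ (by linarith [hP.le2])
    -- a sign vector of product `κ` with the first sign `1`
    have hs : Sg (fun k : Fin 4 => if k = 1 then κ else 1) := fun k => by
      by_cases hk : k = 1
      · simp only [hk, if_true]; exact hP.pm
      · simp [hk]
    obtain ⟨v, hv⟩ := hP.hA (fun k : Fin 4 => if k = 1 then κ else 1) hs (by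
      rw [Fin.prod_univ_four]; simp)
    have h2 : ∑ k, u k * (tA / 2 * (if k = 1 then κ else 1)) ≤ 1 := hG.le _ hu _ hv
    rw [Finset.sum_eq_single 0 (fun k _ hk => by rw [huk k hk, zero_mul]) (by simp)] at h2
    simp only [show ¬ ((0 : Fin 4) = 1) by decide, if_false, mul_one] at h2
    by_contra hc
    have := mul_lt_mul_of_pos_right (not_le.1 hc) hu0
    linarith
  have habs : ∀ s : Fin 4 → ℝ, Sg s → ∀ k, |2 * tB / 2 * s k| = tB := fun s hs k => by
    rw [abs_mul, pm_abs (hs k), mul_one, mul_div_cancel_left₀ _ (by norm_num : (2 : ℝ) ≠ 0),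
      abs_of_pos htB]
  have hprod : ∀ s : Fin 4 → ℝ, ∏ k, (2 * tB / 2 * s k) = tB ^ 4 * ∏ k, s k := fun s => by
    rw [Finset.prod_mul_distrib]
    congr 1
    rw [Finset.prod_const, Finset.card_univ, Fintype.card_fin]
    ring
  have ht4 : 0 < tB ^ 4 := by positivity
  have hall : ∀ s : Fin 4 → ℝ, Sg s → ∃ v, ((fun k => 2 * tB / 2 * s k), v) ∈ G := fun s hs => by
    have hpm : ∏ k, s k = 1 ∨ ∏ k, s k = -1 := by
      rw [Fin.prod_univ_four]
      exact pm_mul (pm_mul (pm_mul (hs _) (hs _)) (hs _)) (hs _)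
    have hA := hP.hA s hs
    have hC := hP.hC s hs
    rw [htA] at hA
    rw [htC] at hC
    rcases hpm with h1 | h1 <;> rcases hP.pm with h2 | h2
    · exact hA (by rw [h1, h2])
    · exact hC (by rw [h1, h2]; norm_num)
    · exact hC (by rw [h1, h2])
    · exact hA (by rw [h1, h2])
  refine ⟨htB, ?_, ?_, ?_⟩
  · obtain ⟨v, hv⟩ := hall om sg_om
    refine ⟨_, hv, habs om sg_om, ?_⟩
    show ∏ k, (2 * tB / 2 * om k) < 0
    rw [hprod, prod_om]
    linarith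
  · obtain ⟨v, hv⟩ := hall (fun _ => 1) (fun _ => Or.inl rfl)
    refine ⟨_, hv, habs _ (fun _ => Or.inl rfl), ?_⟩
    show 0 < ∏ k : Fin 4, (2 * tB / 2 * (1 : ℝ))
    rw [hprod (fun _ => 1), Finset.prod_const_one, mul_one]
    exact ht4
  · refine ⟨_, hu, 0, ?_, huk⟩
    show |u 0| = 1 / tB
    rw [abs_of_pos hu0, eq_div_iff htB.ne']
    exact h1

theorem core_min {G : Set ((Fin 4 → ℝ) × (Fin 4 → ℝ))} (hG : Dual4 G) {a b c : ℝ} (h : Rad G a b c)
    (hab : a ≤ b) (hac : a ≤ c) :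
    (∃ t, CubeData G t) ∨ ∃ z : Fin 12 → Fin 4 → ℝ, ∀ q ∈ G, ∃ i, Works G q.1 (z i) := by
  obtain ⟨tA, tC, κ, hP⟩ := pos_of_rad hG h hab hac
  rcases le_or_gt (2 * a) tC with h1 | h1
  · exact Or.inl ⟨a, cube_of_pos hG hP h1⟩
  · right
    obtain ⟨e, he⟩ := serve hG hP h1
    have eqv : ((Fin 3 → Bool) ⊕ (Bool × Bool)) ≃ Fin 12 := Fintype.equivFinOfCardEq card_index
    refine ⟨fun i => zz e κ (eqv.symm i), fun q hq => ?_⟩
    obtain ⟨i, hi⟩ := he q hq
    refine ⟨eqv i, ?_⟩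
    simp only [Equiv.symm_apply_apply]
    exact hi

/-! ### Triality -/

theorem Hm_Hm (c : Fin 4 → ℝ) : Hm (Hm c) = c := by
  funext k
  fin_cases k <;> simp [Hm] <;> ring

theorem Nm_Nm (c : Fin 4 → ℝ) : Nm (Nm c) = c := by
  funext k
  fin_cases k <;> simp [Nm]

theorem Hm_sym (x y : Fin 4 → ℝ) : ∑ i, Hm x i * y i = ∑ i, x i * Hm y i := by
  simp only [Fin.sum_univ_four, Hm, Matrix.cons_val]
  ring

theorem Nm_sym (x y : Fin 4 → ℝ) : ∑ i, Nm x i * y i = ∑ i, x i * Nm y i := by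
  simp only [Fin.sum_univ_four, Nm, Matrix.cons_val]
  ring

theorem Hm_smul (t : ℝ) (c : Fin 4 → ℝ) : Hm (fun i => t * c i) = fun i => t * Hm c i := by
  funext k
  fin_cases k <;> simp [Hm] <;> ring

theorem Nm_smul (t : ℝ) (c : Fin 4 → ℝ) : Nm (fun i => t * c i) = fun i => t * Nm c i := by
  funext k
  fin_cases k <;> simp [Nm]

theorem Hm_root {a : Fin 4 → ℝ} (ha : Root a) : Root (Hm a) := by
  obtain ⟨h1, h2⟩ := ha
  rw [Fin.sum_univ_four] at h2
  unfold Root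
  rw [Fin.sum_univ_four]
  have b0 := h1 0
  have b1 := h1 1
  have b2 := h1 2
  have b3 := h1 3
  refine ⟨fun i => ?_, ?_⟩
  · rcases b0 with h | h | h <;> rcases b1 with h' | h' | h' <;> rcases b2 with h'' | h'' | h'' <;>
      rcases b3 with h''' | h''' | h''' <;> rw [h, h', h'', h'''] at h2 <;> norm_num at h2 <;>
      fin_cases i <;> simp only [Hm, Matrix.cons_val, h, h', h'', h'''] <;> norm_num
  · simp only [Hm, Matrix.cons_val]
    linear_combination h2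

theorem Nm_root {a : Fin 4 → ℝ} (ha : Root a) : Root (Nm a) := by
  obtain ⟨h1, h2⟩ := ha
  rw [Fin.sum_univ_four] at h2
  unfold Root
  rw [Fin.sum_univ_four]
  refine ⟨fun i => ?_, ?_⟩
  · fin_cases i
    · show -a 0 = 0 ∨ -a 0 = 1 ∨ -a 0 = -1
      rcases h1 0 with h | h | h <;> rw [h] <;> norm_num
    · exact h1 1
    · exact h1 2
    · exact h1 3
  · simp only [Nm, Matrix.cons_val]
    linear_combination h2

theorem Hm_refl (a x : Fin 4 → ℝ) : Hm (refl a x) = refl (Hm a) (Hm x) := by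
  have h : ∑ j, Hm a j * Hm x j = ∑ j, a j * x j := by rw [Hm_sym, Hm_Hm]
  obtain ⟨S, hS⟩ : ∃ S, S = ∑ j, a j * x j := ⟨_, rfl⟩
  have hr : ∀ k, refl a x k = x k - S * a k := fun k => by rw [hS]; rfl
  funext k
  show Hm (refl a x) k = Hm x k - (∑ j, Hm a j * Hm x j) * Hm a k
  rw [h, ← hS]
  fin_cases k <;> simp [Hm, hr] <;> ring

theorem Nm_refl (a x : Fin 4 → ℝ) : Nm (refl a x) = refl (Nm a) (Nm x) := by
  have h : ∑ j, Nm a j * Nm x j = ∑ j, a j * x j := by rw [Nm_sym, Nm_Nm]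
  obtain ⟨S, hS⟩ : ∃ S, S = ∑ j, a j * x j := ⟨_, rfl⟩
  have hr : ∀ k, refl a x k = x k - S * a k := fun k => by rw [hS]; rfl
  funext k
  show Nm (refl a x) k = Nm x k - (∑ j, Nm a j * Nm x j) * Nm a k
  rw [h, ← hS]
  fin_cases k
  · show -refl a x 0 = -x 0 - S * -a 0
    rw [hr]; ring
  · exact hr 1
  · exact hr 2
  · exact hr 3

theorem dual4_img {T : (Fin 4 → ℝ) → (Fin 4 → ℝ)} (h1 : ∀ c, T (T c) = c)
    (h2 : ∀ x y, ∑ i, T x i * y i = ∑ i, x i * T y i) (h3 : ∀ (t : ℝ) c, T (fun i => t * c i) = fun i => t * T c i)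
    (h4 : ∀ a, Root a → Root (T a)) (h5 : ∀ a x, T (refl a x) = refl (T a) (T x))
    {G : Set ((Fin 4 → ℝ) × (Fin 4 → ℝ))} (hG : Dual4 G) : Dual4 (img T G) := by
  have key : ∀ x y, ∑ i, T x i * T y i = ∑ i, x i * y i := fun x y => by rw [h2, h1]
  refine ⟨?_, ?_, ?_, ?_⟩
  · intro p hp
    have := hG.one _ hp
    rw [← this]
    exact (key _ _).symm
  · intro p hp q hq
    have := hG.le _ hp _ hq
    refine le_trans (le_of_eq ?_) this
    exact (key _ _).symm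
  · intro a ha p hp
    have := hG.inv (T a) (h4 a ha) _ hp
    show (T (refl a p.1), T (refl a p.2)) ∈ G
    rw [h5, h5]
    exact this
  · intro x hx
    have hTx : T x ≠ 0 := by
      intro h
      have h6 : ∑ i, x i * x i = 0 := by rw [← key, h]; simp
      apply hx
      funext i
      have h7 := (Finset.sum_eq_zero_iff_of_nonneg (fun i _ => mul_self_nonneg (x i))).1 h6 i
        (Finset.mem_univ _)
      exact mul_self_eq_zero.1 h7
    obtain ⟨t, ht, u, hu⟩ := hG.ray _ hTx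
    refine ⟨t, ht, T u, ?_⟩
    show (T (fun i => t * x i), T (T u)) ∈ G
    rw [h3, h1]
    exact hu

theorem works_img {T : (Fin 4 → ℝ) → (Fin 4 → ℝ)} (h1 : ∀ c, T (T c) = c)
    (h2 : ∀ x y, ∑ i, T x i * y i = ∑ i, x i * T y i) {G : Set ((Fin 4 → ℝ) × (Fin 4 → ℝ))}
    (h : ∃ z : Fin 12 → Fin 4 → ℝ, ∀ q ∈ img T G, ∃ i, Works (img T G) q.1 (z i)) :
    ∃ z : Fin 12 → Fin 4 → ℝ, ∀ q ∈ G, ∃ i, Works G q.1 (z i) := by
  obtain ⟨z, hz⟩ := h
  refine ⟨fun i => T (z i), fun q hq => ?_⟩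
  obtain ⟨i, hi⟩ := hz (T q.1, T q.2) (by show (T (T q.1), T (T q.2)) ∈ G; rw [h1, h1]; exact hq)
  refine ⟨i, fun u hu => ?_⟩
  have := hi (T u) (by show (T (T q.1), T (T u)) ∈ G; rw [h1, h1]; exact hu)
  rw [h2] at this
  exact this

theorem rad_Hm {G : Set ((Fin 4 → ℝ) × (Fin 4 → ℝ))} (hG : Dual4 G) {a b c : ℝ} (h : Rad G a b c) :
    Rad (img Hm G) b a c := by
  refine ⟨h.b0, h.a0, h.c0, ?_, ?_, ?_⟩
  · obtain ⟨u, hu⟩ := h.hb
    refine ⟨Hm u, ?_⟩
    show (Hm _, Hm (Hm u)) ∈ G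
    rw [Hm_Hm]
    convert hu using 2
    funext k
    fin_cases k <;> simp [Hm]
  · obtain ⟨u, hu⟩ := h.ha
    refine ⟨Hm u, ?_⟩
    show (Hm _, Hm (Hm u)) ∈ G
    rw [Hm_Hm]
    convert hu using 2
    funext k
    fin_cases k <;> simp [Hm] <;> ring
  · obtain ⟨u, hu⟩ := orbit_S hG sg_om h.hc (s := fun k => if k = 0 then 1 else -1)
      (fun k => by by_cases hk : k = 0 <;> simp [hk]) (by rw [prod_om, Fin.prod_univ_four]; simp)
    refine ⟨Hm u, ?_⟩
    show (Hm _, Hm (Hm u)) ∈ G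
    rw [Hm_Hm]
    convert hu using 2
    funext k
    fin_cases k <;> simp [Hm, om] <;> ring

theorem rad_Nm {G : Set ((Fin 4 → ℝ) × (Fin 4 → ℝ))} (hG : Dual4 G) {a b c : ℝ} (h : Rad G a b c) :
    Rad (img Nm G) a c b := by
  refine ⟨h.a0, h.c0, h.b0, ?_, ?_, ?_⟩
  · obtain ⟨u, hu⟩ := orbit_B hG h.ha 0 (σ := -1) (Or.inr rfl)
    refine ⟨Nm u, ?_⟩
    show (Nm _, Nm (Nm u)) ∈ G
    rw [Nm_Nm]
    convert hu using 2
    funext k
    fin_cases k <;> simp [Nm]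
  · obtain ⟨u, hu⟩ := h.hc
    refine ⟨Nm u, ?_⟩
    show (Nm _, Nm (Nm u)) ∈ G
    rw [Nm_Nm]
    convert hu using 2
    funext k
    fin_cases k <;> simp [Nm, om]
  · obtain ⟨u, hu⟩ := h.hb
    refine ⟨Nm u, ?_⟩
    show (Nm _, Nm (Nm u)) ∈ G
    rw [Nm_Nm]
    convert hu using 2
    funext k
    fin_cases k <;> simp [Nm, om]

theorem dual4_Hm {G : Set ((Fin 4 → ℝ) × (Fin 4 → ℝ))} (hG : Dual4 G) : Dual4 (img Hm G) :=
  dual4_img Hm_Hm Hm_sym Hm_smul (fun _ h => Hm_root h) Hm_refl hG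

theorem dual4_Nm {G : Set ((Fin 4 → ℝ) × (Fin 4 → ℝ))} (hG : Dual4 G) : Dual4 (img Nm G) :=
  dual4_img Nm_Nm Nm_sym Nm_smul (fun _ h => Nm_root h) Nm_refl hG

/-- The core theorem for `D_4`. -/
theorem core {G : Set ((Fin 4 → ℝ) × (Fin 4 → ℝ))} (hG : Dual4 G) :
    (∃ t, CubeData G t) ∨ (∃ t, CubeData (img Hm G) t) ∨ (∃ t, CubeData (img Hm (img Nm G)) t) ∨
      ∃ z : Fin 12 → Fin 4 → ℝ, ∀ q ∈ G, ∃ i, Works G q.1 (z i) := by
  obtain ⟨a, b, c, h⟩ := exists_rad hG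
  by_cases h1 : a ≤ b ∧ a ≤ c
  · rcases core_min hG h h1.1 h1.2 with h2 | h2
    · exact Or.inl h2
    · exact Or.inr (Or.inr (Or.inr h2))
  · by_cases h2 : b ≤ c
    · have h3 : b ≤ a := by
        by_contra h4
        push Not at h4
        exact h1 ⟨h4.le, h4.le.trans h2⟩
      rcases core_min (dual4_Hm hG) (rad_Hm hG h) h3 h2 with h4 | h4
      · exact Or.inr (Or.inl h4)
      · exact Or.inr (Or.inr (Or.inr (works_img Hm_Hm Hm_sym h4)))
    · push Not at h2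
      have h3 : c ≤ a := by
        by_contra h4
        push Not at h4
        exact h1 ⟨(h4.trans h2).le, h4.le⟩
      rcases core_min (dual4_Hm (dual4_Nm hG)) (rad_Hm (dual4_Nm hG) (rad_Nm hG h)) h3 h2.le with h4 | h4
      · exact Or.inr (Or.inr (Or.inl h4))
      · exact Or.inr (Or.inr (Or.inr (works_img Nm_Nm Nm_sym (works_img Hm_Hm Hm_sym h4))))

/-- From the definitions of `DX/D4Defs.lean`. -/
theorem of_DX {G : Set ((Fin 4 → ℝ) × (Fin 4 → ℝ))} (hG : DX.Dual4 G) : Dual4 G := by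
  refine ⟨hG.one, hG.le, ?_, ?_⟩
  · intro a ha p hp
    have hr : DX.IsRoot a := by
      obtain ⟨h1, h2⟩ := ha
      choose z hz using fun k => show ∃ z : ℤ, a k = z by
        rcases h1 k with h | h | h
        · exact ⟨0, by simp [h]⟩
        · exact ⟨1, by simp [h]⟩
        · exact ⟨-1, by simp [h]⟩
      refine ⟨z, hz, ?_⟩
      have : ((∑ k, z k ^ 2 : ℤ) : ℝ) = ((2 : ℤ) : ℝ) := by
        push_cast
        rw [← h2]
        exact Finset.sum_congr rfl fun k _ => by rw [hz k]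
      exact_mod_cast this
    have h := hG.inv p hp a hr
    have e : ∀ x : Fin 4 → ℝ, DX.rfl2 a x = refl a x := fun x => by
      funext k
      unfold DX.rfl2 refl
      congr 2
      exact Finset.sum_congr rfl fun k _ => mul_comm _ _
    rw [e, e] at h
    exact h
  · intro x hx
    obtain ⟨p, hp, t, ht, hpt⟩ := hG.ray x hx
    refine ⟨t, ht, p.2, ?_⟩
    have : (fun i => t * x i) = p.1 := by
      rw [hpt]
      funext i
      simp
    rw [this]
    exact hp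

end Pool.Agent.Lib.MP_5e7226_co.D4

namespace Pool.Agent.Lib.MP_5e7226_co.DX

/-- The core theorem for `D_4` in the form of the skeleton. -/
theorem core4 {G : Set ((Fin 4 → ℝ) × (Fin 4 → ℝ))} (hG : Dual4 G) :
    (∃ t, CubeData G t) ∨ (∃ t, CubeData (img Hm G) t) ∨ (∃ t, CubeData (img Hm (img Nm G)) t) ∨
      ∃ z : Fin 12 → Fin 4 → ℝ, ∀ q ∈ G, ∃ i, Works G q.1 (z i) :=
  D4.core (D4.of_DX hG)

end Pool.Agent.Lib.MP_5e7226_co.DX
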